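import Pool.Agent.Run7.h851.T.Iface
import Pool.Agent.H574R2.D3.B1

/-! The linear form as a series (port of `Dim7/B1.lean`). -/

open Polynomial Pool.Agent.H337R2 Filter Topology Pool.Agent.Run7.h851.T

namespace Pool.Agent.Run7.h292.T

noncomputable section

namespace B1

lemma PM_comp (n : ℕ) : (PM n).comp (-X - C ((4 * n : ℕ) : ℚ)) = - PM n := by
  unfold PM
  rw [Polynomial.mul_comp, Polynomial.C_comp]
  have h1 : (2 * X + C ((4 * n : ℕ) : ℚ) : ℚ[X]).comp (-X - C ((4 * n : ℕ) : ℚ)) =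
      -(2 * X + C ((4 * n : ℕ) : ℚ)) := by
    simp only [Polynomial.add_comp, Polynomial.mul_comp, Polynomial.X_comp, Polynomial.C_comp,
      Polynomial.ofNat_comp]
    ring
  rw [h1]
  ring

lemma xM_comp (n : ℕ) : (xM n).comp (-X - C ((4 * n : ℕ) : ℚ)) = xM n := by
  unfold xM
  rw [Polynomial.pow_comp]
  simp only [Polynomial.add_comp, Polynomial.X_comp, Polynomial.C_comp]
  have : (C ((4 * n : ℕ) : ℚ) : ℚ[X]) = 2 * C ((2 * n : ℕ) : ℚ) := by
    rw [show ((4 * n : ℕ) : ℚ) = 2 * ((2 * n : ℕ) : ℚ) by push_cast; ring, map_mul, map_ofNat]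
  rw [this]
  ring

lemma P_comp (n : ℕ) (Q : ℚ[X]) :
    (PM n * EM n Q).comp (-X - C ((4 * n : ℕ) : ℚ)) = -(PM n * EM n Q) := by
  rw [Polynomial.mul_comp, PM_comp]
  have : (EM n Q).comp (-X - C ((4 * n : ℕ) : ℚ)) = EM n Q := by
    unfold EM
    rw [Polynomial.comp_assoc, xM_comp]
  rw [this]
  ring

lemma deg {n : ℕ} (hn : 10 ≤ n) (Q : ℚ[X]) (hQ : Q.natDegree ≤ 96 * n) :
    (PM n * EM n Q).natDegree + 2 ≤ (QQ (sM n) mM).natDegree := by
  have h0 : (QQ (sM n) mM).natDegree = 64 * (4 * n + 1) := by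
    rw [QQ_natDegree, Finset.sum_const, Nat.card_Icc, smul_eq_mul]
    have : 4 * n + 1 - 0 = 4 * n + 1 := by omega
    rw [this, mul_comm]
  have h1 : (EM n Q).natDegree ≤ (128 + Q.natDegree) * 2 := by
    unfold EM
    refine Polynomial.natDegree_comp_le.trans ?_
    have h2 : (xM n).natDegree ≤ 2 := by
      unfold xM
      refine Polynomial.natDegree_pow_le.trans ?_
      rw [Polynomial.natDegree_X_add_C]
    have h3 : (X ^ 128 * Q).natDegree ≤ 128 + Q.natDegree := by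
      refine Polynomial.natDegree_mul_le.trans ?_
      rw [Polynomial.natDegree_X_pow]
    exact Nat.mul_le_mul h3 h2
  have h3 : (PM n).natDegree ≤ 1 := by
    unfold PM
    refine (Polynomial.natDegree_C_mul_le _ _).trans ?_
    compute_degree
  have h4 : (PM n * EM n Q).natDegree ≤ (PM n).natDegree + (EM n Q).natDegree :=
    Polynomial.natDegree_mul_le
  rw [h0]
  omega

lemma eval_Ico (a b t : ℕ) (hab : a ≤ b) :
    (∏ m ∈ Finset.Ico a b, (X + C (m : ℚ) : ℚ[X])).eval ((t : ℚ) + 1) =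
      ((b + t).factorial : ℚ) / ((a + t).factorial : ℚ) := by
  rw [Polynomial.eval_prod, eq_div_iff (by exact_mod_cast Nat.factorial_ne_zero _)]
  have := Pool.Agent.H574R2.D3.B1_prod_fact (a + t) (b - a)
  rw [show b + t = a + t + (b - a) by omega, ← this]
  congr 1
  rw [Finset.prod_Ico_eq_prod_range]
  apply Finset.prod_congr rfl
  intro m _
  simp only [Polynomial.eval_add, Polynomial.eval_X, Polynomial.eval_C]
  push_cast
  ring

lemma eval_QQ (n t : ℕ) : (QQ (sM n) mM).eval ((t : ℚ) + 1) =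
    (((4 * n + 1 + t).factorial : ℚ) / (t.factorial : ℚ)) ^ 64 := by
  unfold QQ
  rw [Polynomial.eval_prod]
  have h0 : ∀ m ∈ sM n, ((X + C (m : ℚ) : ℚ[X]) ^ mM m).eval ((t : ℚ) + 1) =
      ((X + C (m : ℚ) : ℚ[X]).eval ((t : ℚ) + 1)) ^ 64 := by
    intro m _
    rw [Polynomial.eval_pow]
  rw [Finset.prod_congr rfl h0, Finset.prod_pow]
  congr 1
  rw [show sM n = Finset.Ico 0 (4 * n + 1) by
    ext x; simp [sM, Finset.mem_Icc], ← Polynomial.eval_prod,
    eval_Ico _ _ _ (by omega), zero_add]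

lemma val (n t : ℕ) (Q : ℚ[X]) :
    (((PM n * EM n Q).eval ((t : ℚ) + 1) / (QQ (sM n) mM).eval ((t : ℚ) + 1) : ℚ) : ℝ) =
      wv n (2 * n + 1 + t) * ((Q.eval (((2 * n + 1 + t : ℕ) : ℚ) ^ 2) : ℚ) : ℝ) := by
  have hE : (EM n Q).eval ((t : ℚ) + 1) = (((2 * n + 1 + t : ℕ) : ℚ)) ^ 256 *
      Q.eval (((2 * n + 1 + t : ℕ) : ℚ) ^ 2) := by
    unfold EM xM
    rw [Polynomial.eval_comp, Polynomial.eval_mul, Polynomial.eval_pow, Polynomial.eval_X,
      Polynomial.eval_pow, Polynomial.eval_add, Polynomial.eval_X, Polynomial.eval_C, ← pow_mul]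
    have : (t : ℚ) + 1 + ((2 * n : ℕ) : ℚ) = ((2 * n + 1 + t : ℕ) : ℚ) := by push_cast; ring
    rw [this]
  have hP : (PM n).eval ((t : ℚ) + 1) =
      ((4 * n).factorial : ℚ) ^ 64 * (2 * ((2 * n + 1 + t : ℕ) : ℚ)) := by
    unfold PM cM
    rw [Polynomial.eval_mul]
    simp only [Polynomial.eval_C, Polynomial.eval_add, Polynomial.eval_mul, Polynomial.eval_X,
      Polynomial.eval_ofNat]
    congr 1
    push_cast
    ring
  rw [Polynomial.eval_mul, hE, hP, eval_QQ]
  unfold wv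
  have e1 : 2 * n + 1 + t + 2 * n = 4 * n + 1 + t := by ring
  have e3 : 2 * n + 1 + t - 2 * n - 1 = t := by omega
  rw [e1, e3]
  simp only [Rat.cast_div, Rat.cast_mul, Rat.cast_pow, Rat.cast_natCast, Rat.cast_ofNat]
  rw [show (((t.factorial : ℝ)) / ((4 * n + 1 + t).factorial : ℝ)) ^ 64 =
    1 / (((4 * n + 1 + t).factorial : ℝ) / (t.factorial : ℝ)) ^ 64 by
      rw [one_div, ← inv_pow, inv_div]]
  ring

end B1

theorem t_B1_hasSum : St_B1_hasSum := by
  intro n hn α β γ θ₁ θ₂ h Q hQ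
  have hd := B1.deg hn Q hQ
  have h1 := Pool.Agent.H574R2.D3.B1_form (sM n) mM (PM n * EM n Q) hd 0 64
    (fun k _ => Nat.zero_le k) (fun k _ => le_rfl) (by
      intro m hm
      exact absurd hm (Nat.not_lt_zero m))
  simp only [Nat.sub_zero] at h1
  have h2 : (fun t : ℕ => wv n (2 * n + 1 + t) * ((Q.eval (((2 * n + 1 + t : ℕ) : ℚ) ^ 2) : ℚ) : ℝ)) =
      fun t : ℕ => (((PM n * EM n Q).eval ((t : ℚ) + 1) / (QQ (sM n) mM).eval ((t : ℚ) + 1) : ℚ) : ℝ) := by
    funext t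
    rw [B1.val]
  rw [h2]
  convert h1 using 1
  rw [AL_apply, BL_apply, BL_apply]
  unfold xa xb rho
  push_cast
  rw [Finset.mul_sum, Finset.mul_sum, ← Finset.sum_add_distrib, ← Finset.sum_add_distrib]
  apply Finset.sum_congr rfl
  intro i hi
  rw [Finset.mem_Icc] at hi
  have key : (∑ k ∈ sM n, ((pa (sM n) mM (PM n * EM n Q) k i : ℚ) : ℝ)) *
      ((α i : ℝ) + θ₁ * (β i : ℝ) + θ₂ * (γ i : ℝ)) =
      (∑ k ∈ sM n, ((pa (sM n) mM (PM n * EM n Q) k i : ℚ) : ℝ)) *
      (if i = 1 then 0 else zr i) := by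
    by_cases hodd : Odd i
    · by_cases hi1 : i = 1
      · subst hi1
        have h6 := residue_sum (sM n) mM (PM n * EM n Q) hd
        have h4 : (∑ k ∈ sM n, ((pa (sM n) mM (PM n * EM n Q) k 1 : ℚ) : ℝ)) = 0 := by
          have : (((∑ k ∈ sM n, pa (sM n) mM (PM n * EM n Q) k 1 : ℚ)) : ℝ) = 0 := by
            rw [h6]; simp
          push_cast at this
          exact this
        rw [h4, zero_mul, zero_mul]
      · rw [if_neg hi1, h i hodd (by obtain ⟨j, hj⟩ := hodd; omega) (by obtain ⟨j, hj⟩ := hodd; omega)]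
    · have hodd' := Nat.not_odd_iff_even.1 hodd
      have h6 := even_vanish (sM n) mM (PM n * EM n Q) (4 * n)
        (fun k hk => by
          rw [Finset.mem_Icc] at hk ⊢
          omega) (fun k hk => rfl)
        (B1.P_comp n Q) (by
          rw [Finset.sum_const, smul_eq_mul]
          exact (by decide : Even 64).mul_left _) hodd' hi.1
      have h4 : (∑ k ∈ sM n, ((pa (sM n) mM (PM n * EM n Q) k i : ℚ) : ℝ)) = 0 := by
        have : (((∑ k ∈ sM n, pa (sM n) mM (PM n * EM n Q) k i : ℚ)) : ℝ) = 0 := by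
          rw [h6]; simp
        push_cast at this
        exact this
      rw [h4, zero_mul, zero_mul]
  linear_combination key

end

end Pool.Agent.Run7.h292.T
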